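import Mathlib
import Pool.Agent.helper54.LFP.Defs

/-!
# Project IFP: induced forests in planar graphs, definitions for multigraphs

Goal (MP_20b59a_co, Q1): every planar graph on `n` vertices has an induced forest on at least
`(2/5 + 1/20000) n` vertices.

A multigraph is given by two end functions `a b : E → N` and a finite set `M` of edges.
-/

set_option linter.unusedSectionVars false

namespace Pool.Agent.helper9.IFP

open Finset Pool.Agent.helper60.ECD Pool.Agent.helper54.LFP
open scoped Classical

section Gen

variable {N E : Type} [DecidableEq N] [DecidableEq E]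

/-- the edges of `M` with both ends in `P` -/
def inE (a b : E → N) (M : Finset E) (P : Finset N) : Finset E :=
  M.filter (fun e => a e ∈ P ∧ b e ∈ P)

/-- the number of edges of `M` with both ends in `P` -/
def ein (a b : E → N) (M : Finset E) (P : Finset N) : ℕ := (inE a b M P).card

/-- `P` spans a forest in `M` (every nonempty subset `Z` spans at most `|Z| - 1` edges) -/
def Fst (a b : E → N) (M : Finset E) (P : Finset N) : Prop :=
  ∀ Z ⊆ P, Z.Nonempty → ein a b M Z + 1 ≤ Z.card

/-- `C` is connected in `M` -/
def Conn (a b : E → N) (M : Finset E) (C : Finset N) : Prop :=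
  C.Nonempty ∧ ∀ A ⊆ C, A.Nonempty → (C \ A).Nonempty →
    ∃ e ∈ M, (a e ∈ A ∧ b e ∈ C \ A) ∨ (b e ∈ A ∧ a e ∈ C \ A)

/-- hereditary sparsity: a set spanning a cycle satisfies `3 e + 10 ≤ 5 n` -/
def HP (a b : E → N) (M : Finset E) : Prop :=
  ∀ P : Finset N, P.Nonempty → P.card ≤ ein a b M P → 3 * ein a b M P + 10 ≤ 5 * P.card

lemma mem_inE {a b : E → N} {M : Finset E} {P : Finset N} {e : E} :
    e ∈ inE a b M P ↔ e ∈ M ∧ a e ∈ P ∧ b e ∈ P := by
  simp [inE]

lemma ein_mono {a b : E → N} {M : Finset E} {P Q : Finset N} (h : P ⊆ Q) :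
    ein a b M P ≤ ein a b M Q := by
  apply card_le_card
  intro e he
  rw [mem_inE] at he ⊢
  exact ⟨he.1, h he.2.1, h he.2.2⟩

lemma ein_empty {a b : E → N} {M : Finset E} : ein a b M ∅ = 0 := by
  simp [ein, inE]

lemma ein_le_card {a b : E → N} {M : Finset E} {P : Finset N} : ein a b M P ≤ M.card :=
  card_le_card (filter_subset _ _)

lemma Fst.mono {a b : E → N} {M : Finset E} {P Q : Finset N} (h : Fst a b M Q) (hPQ : P ⊆ Q) :
    Fst a b M P := fun Z hZ hne => h Z (hZ.trans hPQ) hne

lemma fst_empty {a b : E → N} {M : Finset E} : Fst a b M ∅ := by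
  intro Z hZ hne
  rw [subset_empty] at hZ
  exact absurd hne (by rw [hZ]; exact not_nonempty_empty)

/-- two disjoint sets: `ein` is superadditive -/
lemma ein_union_le {a b : E → N} {M : Finset E} {P Q : Finset N} (h : Disjoint P Q) :
    ein a b M P + ein a b M Q ≤ ein a b M (P ∪ Q) := by
  unfold ein
  rw [← card_union_of_disjoint]
  · apply card_le_card
    intro e he
    rw [mem_union, mem_inE, mem_inE] at he
    rw [mem_inE, mem_union, mem_union]
    tauto
  · rw [disjoint_left]
    intro e he he'
    rw [mem_inE] at he he'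
    exact (disjoint_left.1 h) he.2.1 he'.2.1

end Gen

section Comp

variable {N E : Type} [DecidableEq N] [DecidableEq E]

/-- `x` and `y` are in the same component of `M`: no set closed under `M` separates them -/
def Same (a b : E → N) (M : Finset E) (x y : N) : Prop :=
  ∀ A : Finset N, (∀ e ∈ M, (a e ∈ A ↔ b e ∈ A)) → (x ∈ A ↔ y ∈ A)

variable [Fintype N]

/-- the component of `x` -/
noncomputable def comp (a b : E → N) (M : Finset E) (x : N) : Finset N :=
  univ.filter (fun y => Same a b M x y)

/-- the set of the components -/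
noncomputable def comps (a b : E → N) (M : Finset E) : Finset (Finset N) :=
  univ.image (comp a b M)

end Comp

end Pool.Agent.helper9.IFP
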