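import Mathlib
import Pool.Agent.helper9.IFP.Base

/-! [IFP-6] Partitions of connected sets. -/

set_option linter.unusedSectionVars false

namespace Pool.Agent.helper9.IFP

open Finset

variable {N E : Type} [DecidableEq N] [DecidableEq E]

/-- an edge between two disjoint sets is counted only in the union -/
private lemma ein_union_add_one {a b : E → N} {M : Finset E} {P R : Finset N}
    (h : Disjoint P R) {e : E} (he : e ∈ M)
    (hpr : (a e ∈ P ∧ b e ∈ R) ∨ (b e ∈ P ∧ a e ∈ R)) :
    ein a b M P + ein a b M R + 1 ≤ ein a b M (P ∪ R) := by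
  have hd := disjoint_left.1 h
  have h1 : Disjoint (inE a b M P) (inE a b M R) := by
    rw [disjoint_left]
    intro x hx hx'
    rw [mem_inE] at hx hx'
    exact hd hx.2.1 hx'.2.1
  have h2 : e ∉ inE a b M P ∪ inE a b M R := by
    rw [mem_union, mem_inE, mem_inE]
    rintro (hx | hx)
    · rcases hpr with hh | hh
      · exact hd hx.2.2 hh.2
      · exact hd hx.2.1 hh.2
    · rcases hpr with hh | hh
      · exact hd hh.1 hx.2.1
      · exact hd hh.1 hx.2.2
  unfold ein
  rw [← card_union_of_disjoint h1, ← card_insert_of_notMem h2]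
  apply card_le_card
  intro x hx
  rw [mem_insert, mem_union, mem_inE, mem_inE] at hx
  rw [mem_inE, mem_union, mem_union]
  rcases hx with hx | hx | hx
  · subst hx
    refine ⟨he, ?_⟩
    rcases hpr with hh | hh
    · exact ⟨Or.inl hh.1, Or.inr hh.2⟩
    · exact ⟨Or.inr hh.2, Or.inl hh.1⟩
  · exact ⟨hx.1, Or.inl hx.2.1, Or.inl hx.2.2⟩
  · exact ⟨hx.1, Or.inr hx.2.1, Or.inr hx.2.2⟩

/-- A partition of a connected set `C` into `k` classes: the classes span together at most
`e(C) - (k - 1)` edges. Proof: induction on the number `k` of classes. `k = 1` is clear. For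
`k ≥ 2` take `P ∈ Q`; connectedness for `A = P` gives an edge between `P` and another class `R`;
replace `P` and `R` by `P ∪ R`, which spans at least `e(P) + e(R) + 1` edges. -/
theorem conn_partition (a b : E → N) (M : Finset E) (C : Finset N) (hC : Conn a b M C)
    (Q : Finset (Finset N)) (hne : ∀ P ∈ Q, P.Nonempty)
    (hd : (Q : Set (Finset N)).PairwiseDisjoint id) (hU : Q.biUnion id = C) :
    ∑ P ∈ Q, ein a b M P + Q.card ≤ ein a b M C + 1 := by
  induction hk : Q.card generalizing Q with
  | zero =>
    rw [card_eq_zero] at hk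
    subst hk
    simp
  | succ k ih =>
    have hQne : Q.Nonempty := by
      rw [← card_pos, hk]; omega
    obtain ⟨P, hP⟩ := hQne
    have hPC : P ⊆ C := by
      rw [← hU]
      exact subset_biUnion_of_mem id hP
    rcases Nat.eq_zero_or_pos k with hk0 | hkpos
    · -- one class
      subst hk0
      obtain ⟨P', hP'⟩ := card_eq_one.1 hk
      subst hP'
      rw [singleton_biUnion] at hU
      simp only [id] at hU
      subst hU
      simp
    · -- at least two classes
      have h2 : 1 < Q.card := by omega
      obtain ⟨R', hR', hR'P⟩ := exists_mem_ne h2 P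
      have hCP : (C \ P).Nonempty := by
        obtain ⟨x, hx⟩ := hne R' hR'
        refine ⟨x, mem_sdiff.2 ⟨?_, ?_⟩⟩
        · rw [← hU]
          exact mem_biUnion.2 ⟨R', hR', hx⟩
        · intro hxP
          exact disjoint_left.1 (hd hR' hP hR'P) hx hxP
      obtain ⟨e, he, hor⟩ := hC.2 P hPC (hne P hP) hCP
      -- the other class
      have hex : ∃ R ∈ Q, R ≠ P ∧ ((a e ∈ P ∧ b e ∈ R) ∨ (b e ∈ P ∧ a e ∈ R)) := by
        rcases hor with hh | hh
        · have h3 := mem_sdiff.1 hh.2
          rw [← hU, mem_biUnion] at h3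
          obtain ⟨⟨R, hR, hbR⟩, hbP⟩ := h3
          exact ⟨R, hR, fun hRP => hbP (hRP ▸ hbR), Or.inl ⟨hh.1, hbR⟩⟩
        · have h3 := mem_sdiff.1 hh.2
          rw [← hU, mem_biUnion] at h3
          obtain ⟨⟨R, hR, hbR⟩, hbP⟩ := h3
          exact ⟨R, hR, fun hRP => hbP (hRP ▸ hbR), Or.inr ⟨hh.1, hbR⟩⟩
      obtain ⟨R, hR, hRP, hpr⟩ := hex
      have hdPR : Disjoint P R := hd hP hR (Ne.symm hRP)
      have hRE : R ∈ Q.erase P := mem_erase.2 ⟨hRP, hR⟩
      set T := (Q.erase P).erase R with hT
      have hTQ : ∀ X ∈ T, X ∈ Q ∧ X ≠ P ∧ X ≠ R := by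
        intro X hX
        rw [hT, mem_erase, mem_erase] at hX
        exact ⟨hX.2.2, hX.2.1, hX.1⟩
      have hnot : P ∪ R ∉ T := by
        intro hmem
        obtain ⟨h5, h6, h7⟩ := hTQ _ hmem
        obtain ⟨x, hx⟩ := hne P hP
        exact disjoint_left.1 (hd h5 hP h6) (mem_union_left _ hx) hx
      have hcardT : T.card + 2 = Q.card := by
        have h8 := card_erase_add_one hRE
        have h9 := card_erase_add_one hP
        rw [← hT] at h8
        omega
      have hsum : ∑ X ∈ Q, ein a b M X = ∑ X ∈ T, ein a b M X + ein a b M R + ein a b M P := by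
        rw [← sum_erase_add Q _ hP, ← sum_erase_add (Q.erase P) _ hRE]
      have hkey := ih (insert (P ∪ R) T) ?_ ?_ ?_ ?_
      · rw [sum_insert hnot] at hkey
        have h10 := ein_union_add_one hdPR he hpr
        omega
      · intro X hX
        rcases mem_insert.1 hX with hX | hX
        · subst hX
          exact (hne P hP).mono subset_union_left
        · exact hne X (hTQ X hX).1
      · rw [coe_insert, Set.pairwiseDisjoint_insert]
        refine ⟨?_, ?_⟩
        · intro X hX Y hY hXY
          exact hd (hTQ X hX).1 (hTQ Y hY).1 hXY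
        · intro Y hY _
          obtain ⟨h5, h6, h7⟩ := hTQ Y hY
          have h11 : Disjoint P Y := hd hP h5 (Ne.symm h6)
          have h12 : Disjoint R Y := hd hR h5 (Ne.symm h7)
          exact disjoint_union_left.2 ⟨h11, h12⟩
      · rw [← hU]
        ext x
        simp only [mem_biUnion, mem_insert, id]
        constructor
        · rintro ⟨X, hX, hxX⟩
          rcases hX with hX | hX
          · subst hX
            rcases mem_union.1 hxX with h13 | h13
            · exact ⟨P, hP, h13⟩
            · exact ⟨R, hR, h13⟩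
          · exact ⟨X, (hTQ X hX).1, hxX⟩
        · rintro ⟨X, hX, hxX⟩
          by_cases hXP : X = P
          · exact ⟨P ∪ R, Or.inl rfl, mem_union_left _ (hXP ▸ hxX)⟩
          · by_cases hXR : X = R
            · exact ⟨P ∪ R, Or.inl rfl, mem_union_right _ (hXR ▸ hxX)⟩
            · refine ⟨X, Or.inr ?_, hxX⟩
              rw [hT, mem_erase, mem_erase]
              exact ⟨hXR, hXP, hX⟩
      · rw [card_insert_of_notMem hnot]
        omega

/-- the singletons of a finset -/
private lemma sing_card (S : Finset N) :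
    (S.image (fun x => ({x} : Finset N))).card = S.card :=
  card_image_of_injective _ (fun x y h => by simpa using h)

/-- A connected set spans at least `|C| - 1` edges: `conn_partition` for the singletons. -/
theorem card_le_ein (a b : E → N) (M : Finset E) (C : Finset N) (hC : Conn a b M C) :
    C.card ≤ ein a b M C + 1 := by
  have h := conn_partition a b M C hC (C.image (fun x => ({x} : Finset N))) ?_ ?_ ?_
  · rw [sing_card] at h
    omega
  · intro P hP
    obtain ⟨x, -, rfl⟩ := mem_image.1 hP
    exact singleton_nonempty x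
  · intro P hP R hR hPR
    rw [mem_coe, mem_image] at hP hR
    obtain ⟨x, -, rfl⟩ := hP
    obtain ⟨y, -, rfl⟩ := hR
    have hxy : x ≠ y := fun h => hPR (by rw [h])
    exact disjoint_singleton.2 hxy
  · ext x
    simp

/-- A connected set with at most `|C| - 1` edges is a forest: for `Z ⊆ C` nonempty use
`conn_partition` for `Z` and the singletons of `C \ Z`. -/
theorem fst_of_tree (a b : E → N) (M : Finset E) (C : Finset N) (hC : Conn a b M C)
    (h : ein a b M C + 1 ≤ C.card) : Fst a b M C := by
  intro Z hZ hZne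
  set S := (C \ Z).image (fun x => ({x} : Finset N)) with hS
  have hZS : Z ∉ S := by
    intro hmem
    rw [hS, mem_image] at hmem
    obtain ⟨x, hx, hxZ⟩ := hmem
    have : x ∈ Z := by rw [← hxZ]; exact mem_singleton_self x
    exact (mem_sdiff.1 hx).2 this
  have hk := conn_partition a b M C hC (insert Z S) ?_ ?_ ?_
  · rw [sum_insert hZS, card_insert_of_notMem hZS, hS, sing_card,
      card_sdiff_of_subset hZ] at hk
    have h1 := card_le_card hZ
    omega
  · intro P hP
    rcases mem_insert.1 hP with hP | hP
    · subst hP; exact hZne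
    · rw [hS, mem_image] at hP
      obtain ⟨x, -, rfl⟩ := hP
      exact singleton_nonempty x
  · rw [coe_insert, Set.pairwiseDisjoint_insert]
    refine ⟨?_, ?_⟩
    · intro P hP R hR hPR
      rw [mem_coe, hS, mem_image] at hP hR
      obtain ⟨x, -, rfl⟩ := hP
      obtain ⟨y, -, rfl⟩ := hR
      have hxy : x ≠ y := fun h => hPR (by rw [h])
      exact disjoint_singleton.2 hxy
    · intro P hP _
      rw [mem_coe, hS, mem_image] at hP
      obtain ⟨x, hx, rfl⟩ := hP
      exact disjoint_singleton_right.2 (mem_sdiff.1 hx).2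
  · ext x
    simp only [mem_biUnion, mem_insert, hS, mem_image, mem_sdiff, id]
    constructor
    · rintro ⟨X, hX | ⟨y, hy, rfl⟩, hxX⟩
      · subst hX; exact hZ hxX
      · rw [mem_singleton] at hxX
        subst hxX
        exact hy.1
    · intro hx
      by_cases hxZ : x ∈ Z
      · exact ⟨Z, Or.inl rfl, hxZ⟩
      · exact ⟨{x}, Or.inr ⟨x, ⟨hx, hxZ⟩, rfl⟩, mem_singleton_self x⟩

end Pool.Agent.helper9.IFP
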