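import Mathlib
import Pool.Agent.helper9.IFP.Base

/-! [IFP-1] Deleting at most one edge per node of `J` to get a forest. -/

namespace Pool.Agent.helper9.IFP

open Finset

/-- supermodularity of the number of spanned edges -/
private theorem Del_super {N E : Type} [DecidableEq N] [DecidableEq E] (a b : E → N)
    (A : Finset E) (S T : Finset N) :
    ein a b A S + ein a b A T ≤ ein a b A (S ∪ T) + ein a b A (S ∩ T) := by
  have h1 : inE a b A S ∪ inE a b A T ⊆ inE a b A (S ∪ T) := by
    intro e he
    rw [mem_union, mem_inE, mem_inE] at he
    rw [mem_inE, mem_union, mem_union]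
    tauto
  have h2 : inE a b A S ∩ inE a b A T = inE a b A (S ∩ T) := by
    ext e
    rw [mem_inter, mem_inE, mem_inE, mem_inE, mem_inter, mem_inter]
    tauto
  have h3 := card_union_add_card_inter (inE a b A S) (inE a b A T)
  rw [h2] at h3
  have h4 := card_le_card h1
  unfold ein
  omega

private theorem Del_mod {N : Type} [DecidableEq N] (S T J : Finset N) :
    ((S ∪ T) ∩ J).card + ((S ∩ T) ∩ J).card = (S ∩ J).card + (T ∩ J).card := by
  rw [union_inter_distrib_right, inter_inter_distrib_right]
  exact card_union_add_card_inter _ _

private theorem Del_ins {N : Type} [DecidableEq N] {S J : Finset N} {j : N} (hj : j ∉ J)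
    (hS : j ∈ S) : (S ∩ insert j J).card = (S ∩ J).card + 1 := by
  rw [inter_insert_of_mem hS, card_insert_of_notMem]
  intro h
  exact hj (mem_inter.1 h).2

private theorem Del_nins {N : Type} [DecidableEq N] {S J : Finset N} {j : N}
    (hS : j ∉ S) : (S ∩ insert j J).card = (S ∩ J).card := by
  rw [inter_insert_of_notMem hS]

/-- If every nonempty set `S ⊆ U` of nodes spans at most `|S| + |S ∩ J| - 1` edges of `A`, then one
can delete from `A` a set `A \ B` of edges, injectively assigned to nodes of `J` (each deleted edge
`e` to one of its ends `f e ∈ J`), such that the rest `B` is a forest.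

Proof. Induction on `|J|` (generalizing `A`). `J = ∅`: `B = A`. Otherwise take `j ∈ J` and
`J' = J.erase j`.
If the hypothesis holds for `J'` in place of `J`, use the induction hypothesis for `(J', A)`.
Otherwise some nonempty `S ⊆ U` has `|A[S]| + 1 > |S| + |S ∩ J'|`; then `j ∈ S` and `S` is tight:
`|A[S]| + 1 = |S| + |S ∩ J|`. Among the tight nonempty `S ⊆ U` with `j ∈ S` take one, `S0`, of
minimal cardinality. Some edge `e ∈ A[S0]` has the end `j`: otherwise `A[S0] = A[S0 \ {j}]`; if
`S0 = {j}` this is `∅` (an edge inside `{j}` has the end `j`), and `0 + 1 = 1 + 1` is false; otherwise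
the hypothesis for `S0 \ {j}` contradicts tightness. Use the induction hypothesis for
`(J', A.erase e)` and put `f e = j` (`Function.update`). Hypothesis for `(J', A.erase e)`, `S ⊆ U`
nonempty: clear if `j ∉ S`; if `j ∈ S` and `e ∈ A[S]` it loses one edge, clear; if `j ∈ S` and
`e ∉ A[S]`: if `S` is not tight, clear. If `S` is tight, then `S ∩ S0 ∋ j` is tight
(`|A[S]| + |A[S0]| ≤ |A[S ∪ S0]| + |A[S ∩ S0]|` and the hypothesis for `S ∪ S0` and `S ∩ S0`;
cardinalities are modular), and smaller than `S0`, because an end of `e` is in `S0` and not in `S`;
contradiction. -/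
theorem delete_to_forest {N E : Type} [DecidableEq N] [DecidableEq E] (a b : E → N)
    (U J : Finset N) (A : Finset E)
    (hA : ∀ S ⊆ U, S.Nonempty → ein a b A S + 1 ≤ S.card + (S ∩ J).card) :
    ∃ B ⊆ A, Fst a b B U ∧ ∃ f : E → N, Set.InjOn f ((A \ B : Finset E) : Set E) ∧
      ∀ e ∈ A \ B, f e ∈ J ∧ (a e = f e ∨ b e = f e) := by
  induction J using Finset.induction_on generalizing A with
  | empty =>
    refine ⟨A, Subset.refl _, ?_, a, ?_, ?_⟩
    · intro Z hZ hne
      have := hA Z hZ hne
      simpa using this
    · simp
    · simp
  | insert j J' hj ih =>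
    by_cases h' : ∀ S ⊆ U, S.Nonempty → ein a b A S + 1 ≤ S.card + (S ∩ J').card
    · obtain ⟨B, hB, hF, f, hf, hf'⟩ := ih A h'
      exact ⟨B, hB, hF, f, hf, fun e he => ⟨mem_insert_of_mem (hf' e he).1, (hf' e he).2⟩⟩
    · push Not at h'
      obtain ⟨S, hSU, hSne, hS⟩ := h'
      have hjS : j ∈ S := by
        by_contra hjS
        have := hA S hSU hSne
        rw [Del_nins hjS] at this
        omega
      have htS : ein a b A S + 1 = S.card + (S ∩ insert j J').card := by
        have h1 := hA S hSU hSne
        rw [Del_ins hj hjS] at h1 ⊢
        omega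
      obtain ⟨S0, hS0, hmin⟩ := exists_min_image
        (U.powerset.filter (fun S => j ∈ S ∧ ein a b A S + 1 = S.card + (S ∩ insert j J').card))
        Finset.card ⟨S, by
          rw [mem_filter, mem_powerset]
          exact ⟨hSU, hjS, htS⟩⟩
      rw [mem_filter, mem_powerset] at hS0
      obtain ⟨hS0U, hjS0, htS0⟩ := hS0
      have hex : ∃ e ∈ inE a b A S0, a e = j ∨ b e = j := by
        by_contra hne
        push Not at hne
        have heq : ein a b A S0 ≤ ein a b A (S0.erase j) := by
          apply card_le_card
          intro e he
          have h1 := hne e he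
          rw [mem_inE] at he ⊢
          rw [mem_erase, mem_erase]
          exact ⟨he.1, ⟨h1.1, he.2.1⟩, ⟨h1.2, he.2.2⟩⟩
        have hc := card_erase_of_mem hjS0
        have hpos : 1 ≤ S0.card := card_pos.2 ⟨j, hjS0⟩
        rcases (S0.erase j).eq_empty_or_nonempty with he | he
        · rw [he, ein_empty] at heq
          rw [Del_ins hj hjS0] at htS0
          omega
        · have h1 := hA (S0.erase j) ((erase_subset _ _).trans hS0U) he
          rw [Del_nins (notMem_erase j S0)] at h1
          rw [Del_ins hj hjS0] at htS0
          have h2 : ((S0.erase j) ∩ J').card ≤ (S0 ∩ J').card :=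
            card_le_card (inter_subset_inter_right (erase_subset _ _))
          omega
      obtain ⟨e, heI, hej⟩ := hex
      have heA : e ∈ A := (mem_inE.1 heI).1
      obtain ⟨B, hB, hF, f, hf, hf'⟩ := ih (A.erase e) (by
        intro T hTU hTne
        have hmonoA : ein a b (A.erase e) T ≤ ein a b A T := by
          apply card_le_card
          intro x hx
          rw [mem_inE] at hx ⊢
          exact ⟨mem_of_mem_erase hx.1, hx.2⟩
        have hT := hA T hTU hTne
        by_cases hjT : j ∈ T
        · rw [Del_ins hj hjT] at hT
          by_cases heT : e ∈ inE a b A T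
          · have h1 : inE a b (A.erase e) T = (inE a b A T).erase e := by
              ext x
              rw [mem_erase, mem_inE, mem_inE, mem_erase]
              tauto
            have h2 : ein a b (A.erase e) T + 1 = ein a b A T := by
              unfold ein
              rw [h1]
              exact card_erase_add_one heT
            omega
          · by_contra hcon
            have htT : ein a b A T + 1 = T.card + (T ∩ insert j J').card := by
              rw [Del_ins hj hjT]
              omega
            have hsup := Del_super a b A T S0
            have hmod := Del_mod T S0 (insert j J')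
            have hmod2 := card_union_add_card_inter T S0
            have hU := hA (T ∪ S0) (union_subset hTU hS0U) ⟨j, mem_union_left _ hjT⟩
            have hI := hA (T ∩ S0) (inter_subset_left.trans hTU) ⟨j, mem_inter.2 ⟨hjT, hjS0⟩⟩
            have htI : ein a b A (T ∩ S0) + 1
                = (T ∩ S0).card + ((T ∩ S0) ∩ insert j J').card := by
              omega
            have hle := hmin (T ∩ S0) (by
              rw [mem_filter, mem_powerset]
              exact ⟨inter_subset_left.trans hTU, mem_inter.2 ⟨hjT, hjS0⟩, htI⟩)
            have heq : T ∩ S0 = S0 := eq_of_subset_of_card_le inter_subset_right hle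
            apply heT
            rw [mem_inE] at heI ⊢
            refine ⟨heI.1, ?_, ?_⟩
            · have := heI.2.1
              rw [← heq] at this
              exact (mem_inter.1 this).1
            · have := heI.2.2
              rw [← heq] at this
              exact (mem_inter.1 this).1
        · rw [Del_nins hjT] at hT
          omega)
      have hupd : ∀ x ∈ A \ B, x ≠ e → x ∈ A.erase e \ B := by
        intro x hx hxe
        rw [mem_sdiff] at hx ⊢
        exact ⟨mem_erase.2 ⟨hxe, hx.1⟩, hx.2⟩
      refine ⟨B, hB.trans (erase_subset _ _), hF, Function.update f e j, ?_, ?_⟩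
      · intro x hx y hy hxy
        rw [mem_coe] at hx hy
        by_cases hxe : x = e
        · by_cases hye : y = e
          · rw [hxe, hye]
          · rw [hxe, Function.update_self, Function.update_of_ne hye] at hxy
            exact absurd (hf' y (hupd y hy hye)).1 (by rw [← hxy]; exact hj)
        · by_cases hye : y = e
          · rw [hye, Function.update_self, Function.update_of_ne hxe] at hxy
            exact absurd (hf' x (hupd x hx hxe)).1 (by rw [hxy]; exact hj)
          · rw [Function.update_of_ne hxe, Function.update_of_ne hye] at hxy
            exact hf (mem_coe.2 (hupd x hx hxe)) (mem_coe.2 (hupd y hy hye)) hxy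
      · intro x hx
        by_cases hxe : x = e
        · rw [hxe, Function.update_self]
          exact ⟨mem_insert_self _ _, hej⟩
        · rw [Function.update_of_ne hxe]
          have := hf' x (hupd x hx hxe)
          exact ⟨mem_insert_of_mem this.1, this.2⟩

end Pool.Agent.helper9.IFP
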