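import Mathlib
import Pool.Agent.helper9.IFP.Base

/-! [IFP-5] Composition of forests. -/

set_option linter.unusedSectionVars false

namespace Pool.Agent.helper9.IFP

open Finset

variable {N E : Type} [DecidableEq N] [DecidableEq E]

/-- Composition of forests. `c : N → K` is a labelling of the vertices; every label class of `P`
spans a forest and the quotient multigraph, whose edges are the edges of `M` with ends of different
label (in `P`), is a forest on the labels. Then `P` spans a forest.
Proof: for `Z ⊆ P` nonempty, `e(Z) = Σ_{k ∈ c(Z)} e(Z_k) + e_quotient(c(Z))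
≤ Σ (|Z_k| - 1) + |c(Z)| - 1 = |Z| - 1`. -/
theorem fst_of_quotient {K : Type} [DecidableEq K] (a b : E → N) (M : Finset E) (P : Finset N)
    (c : N → K) (h1 : ∀ k, Fst a b M (P.filter (fun x => c x = k)))
    (h2 : Fst (fun e => c (a e)) (fun e => c (b e))
      (M.filter (fun e => a e ∈ P ∧ b e ∈ P ∧ c (a e) ≠ c (b e))) (P.image c)) :
    Fst a b M P := by
  intro Z hZ hne
  have hI : (Z.image c).Nonempty := hne.image c
  have h2' := h2 (Z.image c) (image_subset_image hZ) hI
  have h1' : ∀ k ∈ Z.image c, ein a b M (Z.filter (fun x => c x = k)) + 1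
      ≤ (Z.filter (fun x => c x = k)).card := by
    intro k hk
    refine h1 k _ (filter_subset_filter _ hZ) ?_
    obtain ⟨x, hx, rfl⟩ := mem_image.1 hk
    exact ⟨x, mem_filter.2 ⟨hx, rfl⟩⟩
  have hcard : Z.card = ∑ k ∈ Z.image c, (Z.filter (fun x => c x = k)).card :=
    card_eq_sum_card_fiberwise (fun x hx => mem_image_of_mem c hx)
  have hsub : inE a b M Z ⊆
      ((Z.image c).biUnion (fun k => inE a b M (Z.filter (fun x => c x = k)))) ∪
        inE (fun e => c (a e)) (fun e => c (b e))
          (M.filter (fun e => a e ∈ P ∧ b e ∈ P ∧ c (a e) ≠ c (b e))) (Z.image c) := by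
    intro e he
    rw [mem_inE] at he
    obtain ⟨he0, he1, he2⟩ := he
    rw [mem_union, mem_biUnion, mem_inE, mem_filter]
    by_cases h : c (a e) = c (b e)
    · left
      refine ⟨c (a e), mem_image_of_mem c he1, ?_⟩
      rw [mem_inE, mem_filter, mem_filter]
      exact ⟨he0, ⟨he1, rfl⟩, ⟨he2, h.symm⟩⟩
    · right
      exact ⟨⟨he0, hZ he1, hZ he2, h⟩, mem_image_of_mem c he1, mem_image_of_mem c he2⟩
  have hle : ein a b M Z ≤ ∑ k ∈ Z.image c, ein a b M (Z.filter (fun x => c x = k)) +
      ein (fun e => c (a e)) (fun e => c (b e))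
        (M.filter (fun e => a e ∈ P ∧ b e ∈ P ∧ c (a e) ≠ c (b e))) (Z.image c) := by
    unfold ein
    refine (card_le_card hsub).trans ((card_union_le _ _).trans ?_)
    exact Nat.add_le_add_right card_biUnion_le _
  have hsum : ∑ k ∈ Z.image c, (ein a b M (Z.filter (fun x => c x = k)) + 1)
      ≤ ∑ k ∈ Z.image c, (Z.filter (fun x => c x = k)).card := sum_le_sum h1'
  rw [sum_add_distrib, sum_const, smul_eq_mul, mul_one] at hsum
  omega

end Pool.Agent.helper9.IFP
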