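import Mathlib
import Pool.Agent.helper9.IFP.Del
import Pool.Agent.helper9.IFP.Quot

/-! [IFP-2] The bound for feedback vertex sets by a family of disjoint sets. -/

set_option linter.unusedSectionVars false

namespace Pool.Agent.helper9.IFP

open Finset

variable {N E : Type} [DecidableEq N] [DecidableEq E]

/-- the weight of a set: `⌊(e(P) - |P| + 2) / 2⌋` -/
def wt (a b : E → N) (M : Finset E) (P : Finset N) : ℕ := (ein a b M P + 2 - P.card) / 2

/-- an admissible family of subsets of `U`: nonempty pairwise disjoint sets, each spanning at least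
as many edges as it has vertices -/
def Adm (a b : E → N) (M : Finset E) (U : Finset N) (J : Finset (Finset N)) : Prop :=
  (∀ P ∈ J, P ⊆ U ∧ P.Nonempty ∧ P.card ≤ ein a b M P) ∧
    (J : Set (Finset N)).PairwiseDisjoint id

private lemma wt_pos {a b : E → N} {M : Finset E} {P : Finset N} (h : P.card ≤ ein a b M P) :
    1 ≤ wt a b M P := by
  unfold wt
  omega

private lemma ein_mono_M {a b : E → N} {M M' : Finset E} {P : Finset N} (h : M ⊆ M') :
    ein a b M P ≤ ein a b M' P := by
  apply card_le_card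
  intro e he
  rw [mem_inE] at he ⊢
  exact ⟨h he.1, he.2⟩

private lemma fst_mono_M {a b : E → N} {M M' : Finset E} {P : Finset N} (h : M ⊆ M')
    (hF : Fst a b M' P) : Fst a b M P := by
  intro Z hZ hne
  have h1 := hF Z hZ hne
  have h2 : ein a b M Z ≤ ein a b M' Z := ein_mono_M h
  omega

/-- an optimal admissible family -/
private lemma exists_opt (a b : E → N) (M : Finset E) (U : Finset N) :
    ∃ J, Adm a b M U J ∧
      (∀ J', Adm a b M U J' → ∑ P ∈ J', wt a b M P ≤ ∑ P ∈ J, wt a b M P) ∧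
      (∀ J', Adm a b M U J' → ∑ P ∈ J', wt a b M P = ∑ P ∈ J, wt a b M P →
        ∑ P ∈ J, P.card ≤ ∑ P ∈ J', P.card) := by
  classical
  have hmem : ∀ J, Adm a b M U J → J ∈ U.powerset.powerset := by
    intro J hJ
    rw [mem_powerset]
    intro P hP
    rw [mem_powerset]
    exact (hJ.1 P hP).1
  set F := (U.powerset.powerset).filter (fun J => Adm a b M U J) with hF
  have hF0 : F.Nonempty := by
    refine ⟨∅, ?_⟩
    rw [hF, mem_filter]
    have h0 : Adm a b M U ∅ := by
      refine ⟨fun P hP => absurd hP (notMem_empty P), ?_⟩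
      simp
    exact ⟨hmem _ h0, h0⟩
  obtain ⟨J0, hJ0, hmax⟩ := exists_max_image F (fun J => ∑ P ∈ J, wt a b M P) hF0
  set G := F.filter (fun J => ∑ P ∈ J, wt a b M P = ∑ P ∈ J0, wt a b M P) with hG
  have hG0 : G.Nonempty := ⟨J0, by rw [hG, mem_filter]; exact ⟨hJ0, rfl⟩⟩
  obtain ⟨J, hJ, hmin⟩ := exists_min_image G (fun J => ∑ P ∈ J, P.card) hG0
  rw [hG, mem_filter, hF, mem_filter] at hJ
  refine ⟨J, hJ.1.2, ?_, ?_⟩
  · intro J' hJ'
    rw [hJ.2]
    exact hmax J' (by rw [hF, mem_filter]; exact ⟨hmem _ hJ', hJ'⟩)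
  · intro J' hJ' he
    exact hmin J' (by
      rw [hG, mem_filter, hF, mem_filter]
      exact ⟨⟨hmem _ hJ', hJ'⟩, by rw [he, hJ.2]⟩)

/-- step (1) -/
private lemma step_one {a b : E → N} {M : Finset E} {U : Finset N} {J : Finset (Finset N)}
    (hJ : Adm a b M U J)
    (hmax : ∀ J', Adm a b M U J' → ∑ P ∈ J', wt a b M P ≤ ∑ P ∈ J, wt a b M P)
    (hmin : ∀ J', Adm a b M U J' → ∑ P ∈ J', wt a b M P = ∑ P ∈ J, wt a b M P →
        ∑ P ∈ J, P.card ≤ ∑ P ∈ J', P.card)
    {P : Finset N} (hP : P ∈ J) {x : N} (hx : x ∈ P) {J' : Finset (Finset N)}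
    (hJ' : Adm a b M (P.erase x) J') : ∑ Q ∈ J', wt a b M Q + 1 ≤ wt a b M P := by
  classical
  by_contra hcon
  have hle : wt a b M P ≤ ∑ Q ∈ J', wt a b M Q := by omega
  have hsub : ∀ Q ∈ J', Q ⊆ P := fun Q hQ => (hJ'.1 Q hQ).1.trans (erase_subset _ _)
  have hdisj0 : ∀ R ∈ J.erase P, Disjoint R P := by
    intro R hR
    rw [mem_erase] at hR
    exact hJ.2 hR.2 hP hR.1
  have hdJ : Disjoint (J.erase P) J' := by
    rw [disjoint_left]
    intro R hR hR'
    have h1 := hdisj0 R hR
    have h2 := hsub R hR'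
    have h3 : R.Nonempty := (hJ'.1 R hR').2.1
    obtain ⟨y, hy⟩ := h3
    exact (disjoint_left.1 h1) hy (h2 hy)
  have hadm : Adm a b M U (J.erase P ∪ J') := by
    refine ⟨?_, ?_⟩
    · intro R hR
      rw [mem_union] at hR
      rcases hR with hR | hR
      · exact hJ.1 R (mem_of_mem_erase hR)
      · exact ⟨(hsub R hR).trans (hJ.1 P hP).1, (hJ'.1 R hR).2⟩
    · intro R hR R' hR' hne
      rw [mem_coe, mem_union] at hR hR'
      show Disjoint R R'
      rcases hR with hR | hR <;> rcases hR' with hR' | hR'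
      · exact hJ.2 (mem_of_mem_erase hR) (mem_of_mem_erase hR') hne
      · exact (hdisj0 R hR).mono_right (hsub R' hR')
      · exact ((hdisj0 R' hR').mono_right (hsub R hR)).symm
      · exact hJ'.2 hR hR' hne
  have hsum : ∀ g : Finset N → ℕ, ∑ Q ∈ J.erase P ∪ J', g Q =
      ∑ Q ∈ J.erase P, g Q + ∑ Q ∈ J', g Q := fun g => sum_union hdJ
  have hsum2 : ∀ g : Finset N → ℕ, ∑ Q ∈ J.erase P, g Q + g P = ∑ Q ∈ J, g Q :=
    fun g => sum_erase_add J g hP
  have h1 := hmax _ hadm
  have h2 := hsum (wt a b M)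
  have h3 := hsum2 (wt a b M)
  have heq : ∑ Q ∈ J.erase P ∪ J', wt a b M Q = ∑ Q ∈ J, wt a b M Q := by omega
  have h4 := hmin _ hadm heq
  have h5 := hsum (fun Q => Q.card)
  have h6 := hsum2 (fun Q => Q.card)
  have h7 : ∑ Q ∈ J', Q.card ≤ (P.erase x).card := by
    have h70 : ∑ Q ∈ J', Q.card = (J'.biUnion id).card :=
      (card_biUnion (s := J') (t := id) (fun Q hQ R hR hne => hJ'.2 hQ hR hne)).symm
    rw [h70]
    apply card_le_card
    intro y hy
    rw [mem_biUnion] at hy
    obtain ⟨Q, hQ, hyQ⟩ := hy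
    exact (hJ'.1 Q hQ).1 hyQ
  have h8 : (P.erase x).card + 1 = P.card := card_erase_add_one hx
  omega

/-- labels: `c v` is the member of `J` containing `v`, or `{v}` -/
private lemma exists_label {J : Finset (Finset N)}
    (hd : (J : Set (Finset N)).PairwiseDisjoint id) :
    ∃ c : N → Finset N, (∀ P ∈ J, ∀ v ∈ P, c v = P) ∧ (∀ v, v ∈ c v) ∧
      (∀ v, c v ∉ J → c v = {v}) ∧ ∀ u v, v ∈ c u → c v = c u := by
  classical
  have hex : ∀ v : N, ∃ k : Finset N, v ∈ k ∧ (k ∈ J ∨ (k = {v} ∧ ∀ P ∈ J, v ∉ P)) := by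
    intro v
    by_cases h : ∃ P ∈ J, v ∈ P
    · obtain ⟨P, hP, hv⟩ := h
      exact ⟨P, hv, Or.inl hP⟩
    · push Not at h
      exact ⟨{v}, mem_singleton_self v, Or.inr ⟨rfl, h⟩⟩
  choose c hc1 hc2 using hex
  have huniq : ∀ P ∈ J, ∀ Q ∈ J, ∀ v, v ∈ P → v ∈ Q → P = Q := by
    intro P hP Q hQ v hv hv'
    by_contra hne
    exact (disjoint_left.1 (hd hP hQ hne)) hv hv'
  have hcP : ∀ P ∈ J, ∀ v ∈ P, c v = P := by
    intro P hP v hv
    rcases hc2 v with h | h
    · exact huniq _ h P hP v (hc1 v) hv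
    · exact absurd hv (h.2 P hP)
  refine ⟨c, hcP, hc1, ?_, ?_⟩
  · intro v hv
    rcases hc2 v with h | h
    · exact absurd h hv
    · exact h.1
  · intro u v hv
    rcases hc2 u with h | h
    · exact hcP _ h v hv
    · have : v = u := by
        have := hv
        rw [h.1, mem_singleton] at this
        exact this
      rw [this]

/-- step (2) -/
private lemma step_two {a b : E → N} {M : Finset E} {U : Finset N} {J : Finset (Finset N)}
    (hJ : Adm a b M U J)
    (hmax : ∀ J', Adm a b M U J' → ∑ P ∈ J', wt a b M P ≤ ∑ P ∈ J, wt a b M P)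
    {c : N → Finset N} (hc1 : ∀ P ∈ J, ∀ v ∈ P, c v = P) (hc2 : ∀ v, v ∈ c v)
    (hc3 : ∀ v, c v ∉ J → c v = {v}) (hc4 : ∀ u v, v ∈ c u → c v = c u)
    (S : Finset (Finset N)) (hS : S ⊆ U.image c) (hSne : S.Nonempty) :
    ein (fun e => c (a e)) (fun e => c (b e))
      (M.filter (fun e => a e ∈ U ∧ b e ∈ U ∧ c (a e) ≠ c (b e))) S + 1
      ≤ S.card + (S ∩ J).card := by
  classical
  by_contra hcon
  set A := M.filter (fun e => a e ∈ U ∧ b e ∈ U ∧ c (a e) ≠ c (b e)) with hA
  have hcon' : S.card + (S ∩ J).card ≤ ein (fun e => c (a e)) (fun e => c (b e)) A S := by omega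
  set Q := S.biUnion id with hQ
  have hnode : ∀ k ∈ S, ∃ u ∈ U, c u = k := by
    intro k hk
    have := hS hk
    rw [mem_image] at this
    exact this
  have hkc : ∀ k ∈ S, ∀ v ∈ k, c v = k := by
    intro k hk v hv
    obtain ⟨u, hu, rfl⟩ := hnode k hk
    exact hc4 u v hv
  have hkU : ∀ k ∈ S, k ⊆ U := by
    intro k hk
    by_cases hkJ : k ∈ J
    · exact (hJ.1 k hkJ).1
    · obtain ⟨u, hu, rfl⟩ := hnode k hk
      rw [hc3 u hkJ]
      exact singleton_subset_iff.2 hu
  have hkne : ∀ k ∈ S, k.Nonempty := by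
    intro k hk
    obtain ⟨u, hu, rfl⟩ := hnode k hk
    exact ⟨u, hc2 u⟩
  have hkd : ∀ k ∈ S, ∀ l ∈ S, k ≠ l → Disjoint k l := by
    intro k hk l hl hne
    rw [disjoint_left]
    intro v hv hv'
    exact hne ((hkc k hk v hv).symm.trans (hkc l hl v hv'))
  -- cardinality of Q
  have hQcard : Q.card + (S ∩ J).card = ∑ P ∈ S ∩ J, P.card + S.card := by
    have h1 : Q.card = ∑ k ∈ S, k.card := card_biUnion (s := S) (t := id) hkd
    have h2 : ∑ k ∈ S ∩ J, k.card + ∑ k ∈ S \ J, k.card = ∑ k ∈ S, k.card :=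
      sum_inter_add_sum_sdiff S J _
    have h3 : ∑ k ∈ S \ J, k.card = (S \ J).card := by
      rw [card_eq_sum_ones]
      apply sum_congr rfl
      intro k hk
      rw [mem_sdiff] at hk
      obtain ⟨u, hu, rfl⟩ := hnode k hk.1
      rw [hc3 u hk.2, card_singleton]
    have h4 : (S ∩ J).card + (S \ J).card = S.card := card_inter_add_card_sdiff S J
    omega
  -- edges of Q
  have hQe : ∑ P ∈ S ∩ J, ein a b M P + ein (fun e => c (a e)) (fun e => c (b e)) A S
      ≤ ein a b M Q := by
    have h1 : ∑ P ∈ S ∩ J, ein a b M P = ((S ∩ J).biUnion (inE a b M)).card := by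
      rw [card_biUnion]
      · rfl
      · intro k hk l hl hne
        rw [mem_coe, mem_inter] at hk hl
        show Disjoint (inE a b M k) (inE a b M l)
        rw [disjoint_left]
        intro e he he'
        rw [mem_inE] at he he'
        exact (disjoint_left.1 (hkd k hk.1 l hl.1 hne)) he.2.1 he'.2.1
    rw [h1]
    unfold ein
    rw [← card_union_of_disjoint]
    · apply card_le_card
      intro e he
      rw [mem_union, mem_biUnion] at he
      rw [mem_inE, hQ, mem_biUnion, mem_biUnion]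
      rcases he with ⟨k, hk, he⟩ | he
      · rw [mem_inter] at hk
        rw [mem_inE] at he
        exact ⟨he.1, ⟨k, hk.1, he.2.1⟩, ⟨k, hk.1, he.2.2⟩⟩
      · rw [mem_inE, hA, mem_filter] at he
        exact ⟨he.1.1, ⟨c (a e), he.2.1, hc2 _⟩, ⟨c (b e), he.2.2, hc2 _⟩⟩
    · rw [disjoint_left]
      intro e he he'
      rw [mem_biUnion] at he
      obtain ⟨k, hk, he⟩ := he
      rw [mem_inter] at hk
      rw [mem_inE] at he
      rw [mem_inE, hA, mem_filter] at he'
      apply he'.1.2.2.2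
      rw [hc1 k hk.2 _ he.2.1, hc1 k hk.2 _ he.2.2]
  -- the weight of Q
  have hsumle : ∀ T ⊆ J, ∑ P ∈ T, P.card + 2 * ∑ P ∈ T, wt a b M P
      ≤ ∑ P ∈ T, ein a b M P + 2 * T.card := by
    intro T hT
    rw [mul_sum, ← sum_add_distrib, card_eq_sum_ones, mul_sum, ← sum_add_distrib]
    apply sum_le_sum
    intro P hP
    have h1 := (hJ.1 P (hT hP)).2.2
    unfold wt
    omega
  have hsl := hsumle (S ∩ J) inter_subset_right
  have hcardle : ∑ P ∈ S ∩ J, P.card ≤ ∑ P ∈ S ∩ J, ein a b M P := by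
    apply sum_le_sum
    intro P hP
    exact (hJ.1 P (inter_subset_right hP)).2.2
  have hSJ : (S ∩ J).card ≤ S.card := card_le_card inter_subset_left
  have hQle : Q.card ≤ ein a b M Q := by omega
  have hwQ : ∑ P ∈ S ∩ J, wt a b M P + 1 ≤ wt a b M Q := by
    have h1 : 2 * (∑ P ∈ S ∩ J, wt a b M P + 1) ≤ ein a b M Q + 2 - Q.card := by omega
    unfold wt at h1 ⊢
    omega
  -- the new family
  have hQd : ∀ R ∈ J \ S, Disjoint R Q := by
    intro R hR
    rw [mem_sdiff] at hR
    rw [disjoint_left]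
    intro v hv hvQ
    rw [hQ, mem_biUnion] at hvQ
    obtain ⟨k, hk, hvk⟩ := hvQ
    have h1 := hc1 R hR.1 v hv
    have h2 := hkc k hk v hvk
    apply hR.2
    rw [← h1, h2]
    exact hk
  have hQne : Q.Nonempty := by
    obtain ⟨k, hk⟩ := hSne
    obtain ⟨v, hv⟩ := hkne k hk
    exact ⟨v, by rw [hQ, mem_biUnion]; exact ⟨k, hk, hv⟩⟩
  have hQn : Q ∉ J \ S := by
    intro h
    obtain ⟨v, hv⟩ := hQne
    exact (disjoint_left.1 (hQd Q h)) hv hv
  have hadm : Adm a b M U (insert Q (J \ S)) := by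
    refine ⟨?_, ?_⟩
    · intro R hR
      rw [mem_insert] at hR
      rcases hR with rfl | hR
      · refine ⟨?_, hQne, hQle⟩
        intro v hv
        rw [hQ, mem_biUnion] at hv
        obtain ⟨k, hk, hvk⟩ := hv
        exact hkU k hk hvk
      · exact hJ.1 R (mem_sdiff.1 hR).1
    · intro R hR R' hR' hne
      rw [mem_coe, mem_insert] at hR hR'
      show Disjoint R R'
      rcases hR with hR | hR <;> rcases hR' with hR' | hR'
      · exact absurd (hR.trans hR'.symm) hne
      · rw [hR]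
        exact (hQd R' hR').symm
      · rw [hR']
        exact hQd R hR
      · exact hJ.2 (mem_sdiff.1 hR).1 (mem_sdiff.1 hR').1 hne
  have h1 := hmax _ hadm
  rw [sum_insert hQn] at h1
  have h2 : ∑ P ∈ J ∩ S, wt a b M P + ∑ P ∈ J \ S, wt a b M P = ∑ P ∈ J, wt a b M P :=
    sum_inter_add_sum_sdiff J S _
  rw [inter_comm] at h2
  omega

/-- Every vertex set `U` of a loopless multigraph has a feedback vertex set `Z` with
`|Z| ≤ Σ_{P ∈ J} wt P` for some admissible family `J` of disjoint subsets of `U`.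

Proof. Strong induction on `|U|`. Let `J` be an admissible family of subsets of `U` for which
`Σ_J wt P` is maximal and, among these, `Σ_J |P|` is minimal (finitely many families:
`U.powerset.powerset`; `J = ∅` is admissible). For a set `P` with `|P| ≤ e(P)`, `wt P ≥ 1`.

(1) If `P ∈ J` and `x ∈ P`, then `P \ {x}` has a feedback vertex set with at most `wt P - 1`
elements: the induction hypothesis gives `Z'` and an admissible family `J'` of subsets of
`P \ {x}` with `|Z'| ≤ Σ_{J'} wt`. If `Σ_{J'} wt ≥ wt P`, then `(J.erase P) ∪ J'` is admissible, with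
at least the same value and a smaller sum of the cardinalities (`Σ_{J'} |Q| ≤ |P| - 1`);
contradiction.

(2) Nodes: the elements of `J` and the singletons `{v}`, `v ∈ U` not covered by `J`. Label
`c v = P` if `v ∈ P ∈ J` and `c v = {v}` otherwise. Let `A` be the edges of `M` with both ends in
`U` and `c (a e) ≠ c (b e)`. For every nonempty set `S` of nodes, the number of edges of `A` inside
`S` is at most `|S| + |S ∩ J| - 1`: otherwise let `Q` be the union of `S`;
`e(Q) ≥ Σ_{P ∈ S ∩ J} e(P) + |S| + |S ∩ J|`, `|Q| = Σ_{P ∈ S ∩ J} |P| + |S \ J|`, so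
`e(Q) + 2 - |Q| ≥ 2 + Σ_{P ∈ S ∩ J} (e(P) + 2 - |P|)` and `wt Q ≥ 1 + Σ_{P ∈ S ∩ J} wt P`, hence
`(J \ S) ∪ {Q}` is admissible with a larger value.

(3) `delete_to_forest` (nodes as vertices, ends `c (a e)`, `c (b e)`) gives `B` and `f`. For every
`P ∈ J` choose `x_P ∈ P`: if some deleted edge `e` (unique) has `f e = P`, an end of `e` in `P`,
otherwise any element. Let `Z_P ∋ x_P` be a feedback vertex set of `P` with `|Z_P| ≤ wt P` from (1)
and `Z = ⋃ Z_P`. `U \ Z` is a forest by `fst_of_quotient` (labels `c`; the edges of `A` inside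
`U \ Z` belong to `B`, since a deleted edge `e` has the end `x_(f e) ∈ Z`). -/
theorem exists_fvs (a b : E → N) (M : Finset E) (hab : ∀ e ∈ M, a e ≠ b e) (U : Finset N) :
    ∃ Z ⊆ U, ∃ J : Finset (Finset N), Adm a b M U J ∧ Fst a b M (U \ Z) ∧
      Z.card ≤ ∑ P ∈ J, wt a b M P := by
  classical
  induction hn : U.card using Nat.strong_induction_on generalizing U with
  | _ n ih =>
  obtain ⟨J, hJ, hmax, hmin⟩ := exists_opt a b M U
  obtain ⟨c, hc1, hc2, hc3, hc4⟩ := exists_label hJ.2
  set A := M.filter (fun e => a e ∈ U ∧ b e ∈ U ∧ c (a e) ≠ c (b e)) with hA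
  obtain ⟨B, hBA, hBF, f, hfinj, hf⟩ := delete_to_forest (fun e => c (a e)) (fun e => c (b e))
    (U.image c) J A (step_two hJ hmax hc1 hc2 hc3 hc4)
  have hstep : ∀ P ∈ J, ∀ x ∈ P, ∃ Z ⊆ P, x ∈ Z ∧ Z.card ≤ wt a b M P ∧ Fst a b M (P \ Z) := by
    intro P hP x hx
    have hcard : (P.erase x).card < n := by
      have h1 : (P.erase x).card + 1 = P.card := card_erase_add_one hx
      have h2 : P.card ≤ U.card := card_le_card (hJ.1 P hP).1
      omega
    obtain ⟨Z', hZ', J', hJ', hF', hc'⟩ := ih _ hcard (P.erase x) rfl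
    have h1 := step_one hJ hmax hmin hP hx hJ'
    refine ⟨insert x Z', ?_, mem_insert_self _ _, ?_, ?_⟩
    · intro y hy
      rw [mem_insert] at hy
      rcases hy with rfl | hy
      · exact hx
      · exact mem_of_mem_erase (hZ' hy)
    · have h2 := card_insert_le x Z'
      omega
    · apply hF'.mono
      intro y hy
      rw [mem_sdiff, mem_insert] at hy
      rw [mem_sdiff, mem_erase]
      push Not at hy
      exact ⟨⟨hy.2.1, hy.1⟩, hy.2.2⟩
  have hZex : ∀ P ∈ J, ∃ Z ⊆ P, Z.card ≤ wt a b M P ∧ Fst a b M (P \ Z) ∧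
      ∀ e ∈ A \ B, f e = P → (a e ∈ Z ∨ b e ∈ Z) := by
    intro P hP
    by_cases h : ∃ e ∈ A \ B, f e = P
    · obtain ⟨e, he, hfe⟩ := h
      have huni : ∀ e' ∈ A \ B, f e' = P → e' = e := by
        intro e' he' hfe'
        exact hfinj (mem_coe.2 he') (mem_coe.2 he) (hfe'.trans hfe.symm)
      have hends := (hf e he).2
      rw [hfe] at hends
      rcases hends with hend | hend
      · have hx : a e ∈ P := by
          have := hc2 (a e)
          rw [hend] at this
          exact this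
        obtain ⟨Z, hZ, hxZ, h1, h2⟩ := hstep P hP (a e) hx
        refine ⟨Z, hZ, h1, h2, ?_⟩
        intro e' he' hfe'
        rw [huni e' he' hfe']
        exact Or.inl hxZ
      · have hx : b e ∈ P := by
          have := hc2 (b e)
          rw [hend] at this
          exact this
        obtain ⟨Z, hZ, hxZ, h1, h2⟩ := hstep P hP (b e) hx
        refine ⟨Z, hZ, h1, h2, ?_⟩
        intro e' he' hfe'
        rw [huni e' he' hfe']
        exact Or.inr hxZ
    · obtain ⟨x, hx⟩ := (hJ.1 P hP).2.1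
      obtain ⟨Z, hZ, hxZ, h1, h2⟩ := hstep P hP x hx
      refine ⟨Z, hZ, h1, h2, ?_⟩
      intro e he hfe
      exact absurd ⟨e, he, hfe⟩ h
  choose! Z hZP hZcard hZF hZe using hZex
  have hZU : J.biUnion Z ⊆ U := by
    intro v hv
    rw [mem_biUnion] at hv
    obtain ⟨P, hP, hv⟩ := hv
    exact (hJ.1 P hP).1 (hZP P hP hv)
  refine ⟨J.biUnion Z, hZU, J, hJ, ?_, ?_⟩
  · apply fst_of_quotient a b M (U \ J.biUnion Z) c
    · intro k
      by_cases hk : k ∈ J
      · apply (hZF k hk).mono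
        intro x hx
        rw [mem_filter, mem_sdiff, mem_biUnion] at hx
        rw [mem_sdiff]
        refine ⟨?_, fun hxk => hx.1.2 ⟨k, hk, hxk⟩⟩
        rw [← hx.2]
        exact hc2 x
      · intro W hW hWne
        obtain ⟨x, hx⟩ := hWne
        have hWk : ∀ y ∈ W, c y = k := fun y hy => (mem_filter.1 (hW hy)).2
        have hall : ∀ y ∈ W, y = x := by
          intro y hy
          have h1 : c x = {x} := hc3 x (by rw [hWk x hx]; exact hk)
          have h2 : y ∈ c x := by
            rw [hWk x hx, ← hWk y hy]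
            exact hc2 y
          rw [h1, mem_singleton] at h2
          exact h2
        have h0 : ein a b M W = 0 := by
          unfold ein
          rw [card_eq_zero]
          apply eq_empty_of_forall_notMem
          intro e he
          rw [mem_inE] at he
          exact hab e he.1 ((hall _ he.2.1).trans (hall _ he.2.2).symm)
        have h1 : 0 < W.card := card_pos.2 ⟨x, hx⟩
        omega
    · have hsub : (M.filter (fun e => a e ∈ U \ J.biUnion Z ∧ b e ∈ U \ J.biUnion Z ∧
          c (a e) ≠ c (b e))) ⊆ B := by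
        intro e he
        rw [mem_filter, mem_sdiff, mem_sdiff] at he
        by_contra hB
        have heA : e ∈ A \ B := by
          rw [mem_sdiff, hA, mem_filter]
          exact ⟨⟨he.1, he.2.1.1, he.2.2.1.1, he.2.2.2⟩, hB⟩
        have hfJ := (hf e heA).1
        rcases hZe (f e) hfJ e heA rfl with h | h
        · exact he.2.1.2 (mem_biUnion.2 ⟨f e, hfJ, h⟩)
        · exact he.2.2.1.2 (mem_biUnion.2 ⟨f e, hfJ, h⟩)
      apply fst_mono_M hsub
      exact hBF.mono (image_subset_image sdiff_subset)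
  · calc (J.biUnion Z).card ≤ ∑ P ∈ J, (Z P).card := card_biUnion_le
      _ ≤ ∑ P ∈ J, wt a b M P := sum_le_sum (fun P hP => hZcard P hP)

end Pool.Agent.helper9.IFP
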