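import Mathlib
import Pool.Agent.helper9.IFP.ThmN
import Pool.Agent.helper9.IFP.ConnP

/-! [IFP-3] The bound `fvs ≤ e / 5` and its stable form for connected sets. -/

set_option linter.unusedSectionVars false

namespace Pool.Agent.helper9.IFP

open Finset

variable {N E : Type} [DecidableEq N] [DecidableEq E]

private lemma kl_sum (a b : E → N) (M : Finset E) (U : Finset N) (J : Finset (Finset N))
    (hJ : ∀ P ∈ J, P ⊆ U) (hd : (J : Set (Finset N)).PairwiseDisjoint id) :
    ∑ P ∈ J, ein a b M P ≤ ein a b M U := by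
  unfold ein
  rw [← card_biUnion]
  · apply card_le_card
    intro e he
    rw [mem_biUnion] at he
    obtain ⟨P, hP, he⟩ := he
    rw [mem_inE] at he ⊢
    exact ⟨he.1, hJ P hP he.2.1, hJ P hP he.2.2⟩
  · intro P hP Q hQ hPQ
    have h := hd (mem_coe.2 hP) (mem_coe.2 hQ) hPQ
    simp only [Function.onFun, id] at h ⊢
    rw [disjoint_left]
    intro e he he'
    rw [mem_inE] at he he'
    exact (disjoint_left.1 h) he.2.1 he'.2.1

private lemma kl_wt (a b : E → N) (M : Finset E) (hp : HP a b M) (P : Finset N)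
    (hne : P.Nonempty) (h : P.card ≤ ein a b M P) :
    5 * wt a b M P ≤ ein a b M P ∧ 2 * wt a b M P + P.card ≤ ein a b M P + 2 := by
  have h1 := hp P hne h
  unfold wt
  omega

private lemma kl_sum5 (a b : E → N) (M : Finset E) (hp : HP a b M) (U : Finset N)
    (J : Finset (Finset N)) (hA : Adm a b M U J) :
    5 * ∑ P ∈ J, wt a b M P ≤ ∑ P ∈ J, ein a b M P := by
  rw [mul_sum]
  exact sum_le_sum (fun P hP => (kl_wt a b M hp P (hA.1 P hP).2.1 (hA.1 P hP).2.2).1)

/-- Proof: `exists_fvs`; for `P` in the family, `3 e(P) + 10 ≤ 5 |P|` gives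
`10 wt P ≤ 5 (e(P) + 2 - |P|) ≤ 2 e(P)`; the sets are disjoint subsets of `U`, so
`Σ e(P) ≤ e(U)`. -/
theorem fvs_fifth (a b : E → N) (M : Finset E) (hab : ∀ e ∈ M, a e ≠ b e) (hp : HP a b M)
    (U : Finset N) : ∃ Z ⊆ U, Fst a b M (U \ Z) ∧ 5 * Z.card ≤ ein a b M U := by
  obtain ⟨Z, hZ, J, hA, hF, hc⟩ := exists_fvs a b M hab U
  refine ⟨Z, hZ, hF, ?_⟩
  have h1 := kl_sum5 a b M hp U J hA
  have h2 := kl_sum a b M U J (fun P hP => (hA.1 P hP).1) hA.2
  omega

/-- Proof: `exists_fvs` for `U = C` gives `Z` and `J`. Let `k = |J|` and `i = |C \ ⋃ J|`. Then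
`5 Σ wt ≤ Σ e(P)` (as in `fvs_fifth`), `2 Σ wt ≤ Σ (e(P) + 2 - |P|) = Σ e(P) + 2 k - (|C| - i)`, and
`conn_partition` for `J` and the singletons of `C \ ⋃ J` gives `Σ e(P) + k + i ≤ e(C) + 1`. Sum:
`7 |Z| ≤ 2 Σ e(P) + 2 k - |C| + i ≤ 2 e(C) + 2 - |C| - i`. -/
theorem fvs_stable (a b : E → N) (M : Finset E) (hab : ∀ e ∈ M, a e ≠ b e) (hp : HP a b M)
    (C : Finset N) (hC : Conn a b M C) :
    ∃ Z ⊆ C, Fst a b M (C \ Z) ∧ 7 * Z.card + C.card ≤ 2 * ein a b M C + 2 := by
  obtain ⟨Z, hZ, J, hA, hF, hc⟩ := exists_fvs a b M hab C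
  refine ⟨Z, hZ, hF, ?_⟩
  have h1 := kl_sum5 a b M hp C J hA
  have h2 : 2 * ∑ P ∈ J, wt a b M P + ∑ P ∈ J, P.card ≤ ∑ P ∈ J, ein a b M P + 2 * J.card := by
    rw [mul_sum, ← sum_add_distrib]
    have h3 : ∑ P ∈ J, ein a b M P + 2 * J.card = ∑ P ∈ J, (ein a b M P + 2) := by
      rw [sum_add_distrib, sum_const, smul_eq_mul, mul_comm J.card 2]
    rw [h3]
    exact sum_le_sum (fun P hP => (kl_wt a b M hp P (hA.1 P hP).2.1 (hA.1 P hP).2.2).2)
  obtain ⟨W, hW⟩ : ∃ W, W = J.biUnion id := ⟨_, rfl⟩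
  have hWC : W ⊆ C := by
    rw [hW]
    intro x hx
    rw [mem_biUnion] at hx
    obtain ⟨P, hP, hx⟩ := hx
    exact (hA.1 P hP).1 hx
  have hWc : W.card = ∑ P ∈ J, P.card := by
    rw [hW, card_biUnion]
    · rfl
    · intro P hP Q hQ hPQ
      exact hA.2 (mem_coe.2 hP) (mem_coe.2 hQ) hPQ
  have hCc : (C \ W).card + W.card = C.card := card_sdiff_add_card_eq_card hWC
  obtain ⟨S, hS⟩ : ∃ S : Finset (Finset N), S = (C \ W).image (fun x => {x}) := ⟨_, rfl⟩
  have hSc : S.card = (C \ W).card := by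
    rw [hS]
    exact card_image_of_injective _ (fun x y h => singleton_injective h)
  have hJS : Disjoint J S := by
    rw [disjoint_left]
    intro P hP hPS
    rw [hS, mem_image] at hPS
    obtain ⟨x, hx, hxP⟩ := hPS
    rw [mem_sdiff] at hx
    apply hx.2
    rw [hW, mem_biUnion]
    exact ⟨P, hP, by rw [← hxP]; exact mem_singleton_self x⟩
  have h4 := conn_partition a b M C hC (J ∪ S) (by
      intro P hP
      rw [mem_union] at hP
      rcases hP with hP | hP
      · exact (hA.1 P hP).2.1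
      · rw [hS, mem_image] at hP
        obtain ⟨x, -, hxP⟩ := hP
        rw [← hxP]
        exact singleton_nonempty x) (by
      have key : ∀ P ∈ J, ∀ Q ∈ S, Disjoint P Q := by
        intro P hP Q hQ
        rw [hS, mem_image] at hQ
        obtain ⟨x, hx, hxQ⟩ := hQ
        rw [← hxQ, disjoint_singleton_right]
        intro hxP
        rw [mem_sdiff] at hx
        apply hx.2
        rw [hW, mem_biUnion]
        exact ⟨P, hP, hxP⟩
      intro P hP Q hQ hPQ
      rw [mem_coe, mem_union] at hP hQ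
      simp only [Function.onFun, id]
      rcases hP with hP | hP <;> rcases hQ with hQ | hQ
      · exact hA.2 (mem_coe.2 hP) (mem_coe.2 hQ) hPQ
      · exact key P hP Q hQ
      · exact (key Q hQ P hP).symm
      · rw [hS, mem_image] at hP hQ
        obtain ⟨x, -, hx⟩ := hP
        obtain ⟨y, -, hy⟩ := hQ
        rw [← hx, ← hy, disjoint_singleton]
        intro hxy
        apply hPQ
        rw [← hx, ← hy, hxy]) (by
      ext x
      rw [mem_biUnion]
      constructor
      · rintro ⟨P, hP, hx⟩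
        rw [mem_union] at hP
        rcases hP with hP | hP
        · exact (hA.1 P hP).1 hx
        · rw [hS, mem_image] at hP
          obtain ⟨y, hy, hyP⟩ := hP
          rw [← hyP, id, mem_singleton] at hx
          rw [hx]
          exact (mem_sdiff.1 hy).1
      · intro hx
        by_cases hxW : x ∈ W
        · rw [hW, mem_biUnion] at hxW
          obtain ⟨P, hP, hxP⟩ := hxW
          exact ⟨P, mem_union_left _ hP, hxP⟩
        · refine ⟨{x}, mem_union_right _ ?_, mem_singleton_self x⟩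
          rw [hS, mem_image]
          exact ⟨x, mem_sdiff.2 ⟨hx, hxW⟩, rfl⟩)
  rw [card_union_of_disjoint hJS, sum_union hJS, hSc] at h4
  omega

/-- If `5` divides `e(C)`, every vertex `x ∈ C` which has an edge inside `C` lies in a feedback
vertex set of `C` with at most `e(C) / 5` elements. Proof: `fvs_fifth` for `C \ {x}`, which spans
at most `e(C) - 1` edges. -/
theorem fvs_through (a b : E → N) (M : Finset E) (hab : ∀ e ∈ M, a e ≠ b e) (hp : HP a b M)
    (C : Finset N) (h5 : 5 ∣ ein a b M C) (x : N) (hx : x ∈ C)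
    (he : ∃ e ∈ inE a b M C, a e = x ∨ b e = x) :
    ∃ Z ⊆ C, x ∈ Z ∧ Fst a b M (C \ Z) ∧ 5 * Z.card ≤ ein a b M C := by
  obtain ⟨Z, hZ, hF, hc⟩ := fvs_fifth a b M hab hp (C.erase x)
  have h1 : ein a b M (C.erase x) + 1 ≤ ein a b M C := by
    obtain ⟨e, he, hex⟩ := he
    unfold ein
    rw [← Nat.lt_iff_add_one_le]
    apply card_lt_card
    rw [ssubset_iff_of_subset]
    · refine ⟨e, he, fun h => ?_⟩
      rw [mem_inE, mem_erase, mem_erase] at h
      rcases hex with h2 | h2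
      · exact h.2.1.1 h2
      · exact h.2.2.1 h2
    · intro f hf
      rw [mem_inE] at hf ⊢
      exact ⟨hf.1, mem_of_mem_erase hf.2.1, mem_of_mem_erase hf.2.2⟩
  refine ⟨insert x Z, ?_, mem_insert_self _ _, ?_, ?_⟩
  · rw [insert_subset_iff]
    exact ⟨hx, hZ.trans (erase_subset _ _)⟩
  · refine hF.mono ?_
    intro y hy
    rw [mem_sdiff, mem_insert, not_or] at hy
    rw [mem_sdiff, mem_erase]
    exact ⟨⟨hy.2.1, hy.1⟩, hy.2.2⟩
  · have h2 := card_insert_le x Z
    omega

end Pool.Agent.helper9.IFP
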